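import Pool.Agent.SemiTrans.PT.Basic

/-!
# Polynomial-time functions on lists, options, Booleans; equality test
-/

namespace Pool.Agent.SemiTrans.PT

variable {α β γ δ ε : Type*} [Enc α] [Enc β] [Enc γ] [Enc δ] [Enc ε]

/-- Iteration with a parameter. -/
theorem PolyTime.iterate' {f : α → β → β} {n : α → ℕ} {g : α → β}
    (hf : PolyTime (fun p : α × β => f p.1 p.2)) (hn : PolyTime n) (hg : PolyTime g)
    {s : α → ℕ} (hs : PBdd s) (hb : ∀ x, ∀ i < n x, sz ((f x)^[i] (g x)) ≤ s x) :
    PolyTime (fun x => (f x)^[n x] (g x)) := by
  have key : ∀ (x : α) (i : ℕ) (y : β),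
      (fun p : α × β => (p.1, f p.1 p.2))^[i] (x, y) = (x, (f x)^[i] y) := by
    intro x i
    induction i with
    | zero => intro y; rfl
    | succ i ih => intro y; rw [Function.iterate_succ_apply, Function.iterate_succ_apply, ih]
  have h := PolyTime.iterate (f := fun p : α × β => (p.1, f p.1 p.2)) (n := n)
    (g := fun x => (x, g x)) (by fun_prop) hn (by fun_prop)
    (s := fun x => sz x + s x + 1) (by fun_prop) (fun x i hi => by
      rw [key, sz_prod]
      have := hb x i hi
      simp only
      omega)
  refine (PolyTime.snd h).congr fun x => ?_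
  rw [key]

theorem PolyTime.dtCases {t : α → Dt} {f : α → β} {g : α → Dt → Dt → β} (ht : PolyTime t)
    (hf : PolyTime f) (hg : PolyTime (fun p : α × (Dt × Dt) => g p.1 p.2.1 p.2.2)) :
    PolyTime (fun x => Dt.casesOn (motive := fun _ => β) (t x) (f x) (g x)) := by
  refine PolyTime.branch (γ := Dt) (δ := Dt × Dt) (t := t) (f := f)
    (g := fun p => g p.1 p.2.1 p.2.2) ht hf hg fun x => ?_
  cases h : t x with
  | nil => left; exact ⟨rfl, rfl⟩
  | cons u v => right; exact ⟨(u, v), rfl, by simp, rfl⟩

@[fun_prop]
theorem PolyTime.dtCons {f g : α → Dt} (hf : PolyTime f) (hg : PolyTime g) :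
    PolyTime (fun x => Dt.cons (f x) (g x)) := (hf.pair hg).congr_toD fun _ => rfl

/-! ### Booleans -/

@[fun_prop]
theorem PolyTime.not {f : α → Bool} (hf : PolyTime f) : PolyTime (fun x => !(f x)) :=
  (hf.cond (PolyTime.const false) (PolyTime.const true)).congr fun x => by cases f x <;> rfl

@[fun_prop]
theorem PolyTime.and {f g : α → Bool} (hf : PolyTime f) (hg : PolyTime g) :
    PolyTime (fun x => f x && g x) :=
  (hf.cond hg (PolyTime.const false)).congr fun x => by cases f x <;> rfl

@[fun_prop]
theorem PolyTime.or {f g : α → Bool} (hf : PolyTime f) (hg : PolyTime g) :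
    PolyTime (fun x => f x || g x) :=
  (hf.cond (PolyTime.const true) hg).congr fun x => by cases f x <;> rfl

@[fun_prop]
theorem PolyTime.xor {f g : α → Bool} (hf : PolyTime f) (hg : PolyTime g) :
    PolyTime (fun x => Bool.xor (f x) (g x)) :=
  (hf.cond hg.not hg).congr fun x => by cases f x <;> simp

@[fun_prop]
theorem PolyTime.decide_not {P : α → Prop} [DecidablePred P]
    (h : PolyTime (fun x => decide (P x))) : PolyTime (fun x => decide (¬ P x)) :=
  h.not.congr fun x => by simp

@[fun_prop]
theorem PolyTime.decide_and {P Q : α → Prop} [DecidablePred P] [DecidablePred Q]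
    (h : PolyTime (fun x => decide (P x))) (h' : PolyTime (fun x => decide (Q x))) :
    PolyTime (fun x => decide (P x ∧ Q x)) :=
  (h.and h').congr fun x => by simp

@[fun_prop]
theorem PolyTime.decide_or {P Q : α → Prop} [DecidablePred P] [DecidablePred Q]
    (h : PolyTime (fun x => decide (P x))) (h' : PolyTime (fun x => decide (Q x))) :
    PolyTime (fun x => decide (P x ∨ Q x)) :=
  (h.or h').congr fun x => by simp

theorem PolyTime.decide_eq_true {f : α → Bool} (h : PolyTime f) :
    PolyTime (fun x => decide (f x = true)) :=
  h.congr fun x => by simp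

/-! ### Lists -/

/-- tree code of a list -/
def listD : List α → Dt
  | [] => .nil
  | x :: l => .cons (Enc.toD x) (listD l)

theorem listD_inj : Function.Injective (listD (α := α)) := by
  intro l
  induction l with
  | nil => intro m h; cases m <;> simp_all [listD]
  | cons x l ih =>
    intro m h
    cases m with
    | nil => simp [listD] at h
    | cons y m =>
      simp only [listD, Dt.cons.injEq] at h
      rw [Enc.inj h.1, ih h.2]

instance instEncList : Enc (List α) := ⟨listD, listD_inj⟩

@[simp] theorem toD_nil : Enc.toD ([] : List α) = .nil := rfl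
@[simp] theorem toD_cons (x : α) (l : List α) :
    Enc.toD (x :: l) = .cons (Enc.toD x) (Enc.toD l) := rfl

@[simp] theorem sz_nil : sz ([] : List α) = 1 := rfl
@[simp] theorem sz_cons (x : α) (l : List α) : sz (x :: l) = sz x + sz l + 1 := by
  simp [sz, code]

theorem sz_append (l m : List α) : sz (l ++ m) + 1 = sz l + sz m := by
  induction l with
  | nil => simp; omega
  | cons x l ih => simp only [List.cons_append, sz_cons]; omega

theorem sz_append_le (l m : List α) : sz (l ++ m) ≤ sz l + sz m := by
  have := sz_append l m; omega

theorem sz_reverse (l : List α) : sz l.reverse = sz l := by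
  induction l with
  | nil => rfl
  | cons x l ih =>
    have := sz_append l.reverse [x]
    simp only [List.reverse_cons, sz_cons, sz_nil] at this ⊢
    omega

theorem length_le_sz (l : List α) : l.length ≤ sz l := by
  induction l with
  | nil => simp
  | cons x l ih => simp only [List.length_cons, sz_cons]; omega

theorem sz_le_of_mem {x : α} {l : List α} (h : x ∈ l) : sz x ≤ sz l := by
  induction l with
  | nil => simp at h
  | cons y l ih =>
    rw [sz_cons]
    rcases List.mem_cons.1 h with rfl | h
    · omega
    · have := ih h; omega

theorem sz_le_of_sublist {l m : List α} (h : l.Sublist m) : sz l ≤ sz m := by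
  induction h with
  | slnil => exact le_rfl
  | cons a _ ih => rw [sz_cons]; omega
  | cons_cons a _ ih => rw [sz_cons, sz_cons]; omega

theorem sz_le_of_forall {l : List α} {B : ℕ} (h : ∀ x ∈ l, sz x ≤ B) :
    sz l ≤ l.length * (B + 1) + 1 := by
  induction l with
  | nil => simp
  | cons x l ih =>
    have h1 := h x (by simp)
    have h2 := ih fun y hy => h y (by simp [hy])
    rw [sz_cons, List.length_cons, Nat.add_mul]
    omega

@[fun_prop]
theorem PolyTime.cons {f : α → β} {l : α → List β} (hf : PolyTime f) (hl : PolyTime l) :
    PolyTime (fun x => f x :: l x) := (hf.pair hl).congr_toD fun _ => rfl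

theorem PolyTime.listCases {l : α → List β} {f : α → γ} {g : α → β → List β → γ}
    (hl : PolyTime l) (hf : PolyTime f)
    (hg : PolyTime (fun p : α × (β × List β) => g p.1 p.2.1 p.2.2)) :
    PolyTime (fun x => List.casesOn (motive := fun _ => γ) (l x) (f x) (g x)) := by
  refine PolyTime.branch (γ := List β) (δ := β × List β) (t := l) (f := f)
    (g := fun p => g p.1 p.2.1 p.2.2) hl hf hg fun x => ?_
  cases h : l x with
  | nil => left; exact ⟨rfl, rfl⟩
  | cons u v => right; exact ⟨(u, v), rfl, by simp, rfl⟩

omit [Enc α] in
theorem natD_length (l : List α) : Enc.toD l.length = Enc.toD (l.map fun _ => ()) := by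
  induction l with
  | nil => rfl
  | cons x l ih =>
    simp only [List.length_cons, List.map_cons, toD_succ, toD_cons, ih]
    rfl

/-- step function for `foldl` -/
def foldStep (g : α → γ → β → γ) (x : α) (s : List β × γ) : List β × γ :=
  List.casesOn (motive := fun _ => List β × γ) s.1 s fun h t => (t, g x s.2 h)

omit [Enc α] [Enc β] [Enc γ] in
theorem foldStep_iterate (g : α → γ → β → γ) (x : α) : ∀ (i : ℕ) (l : List β) (c : γ),
    (foldStep g x)^[i] (l, c) = (l.drop i, (l.take i).foldl (g x) c) := by
  intro i
  induction i with
  | zero => intro l c; rfl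
  | succ i ih =>
    intro l c
    rw [Function.iterate_succ_apply]
    cases l with
    | nil =>
      have : foldStep g x ([], c) = ([], c) := rfl
      rw [this, ih]
      simp
    | cons h t =>
      have : foldStep g x (h :: t, c) = (t, g x c h) := rfl
      rw [this, ih]
      simp

/-- The loop counting the flagged bits of `B` in unary on `A`. -/
theorem countLoop_exec (l : List Bool) : ∀ (n : ℕ) (a b c d : List Bool),
    Exec (.loop .B (.case .B .skip (.seq (.push .A false) (.push .A true))
        (.seq (.push .A false) (.push .A true))))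
      ⟨code n ++ a, fl l b, c, d⟩ ⟨code (n + l.length) ++ a, b, c, d⟩ (5 * l.length + 1) := by
  induction l with
  | nil => intro n a b c d; exact Exec.loopFalse rfl
  | cons x l ih =>
    intro n a b c d
    have h := ih (n + 1) a b c d
    have h2 : Exec (.case .B .skip (.seq (.push .A false) (.push .A true))
        (.seq (.push .A false) (.push .A true)))
        ⟨code n ++ a, x :: fl l b, c, d⟩ ⟨code (n + 1) ++ a, fl l b, c, d⟩ 4 := by
      cases x
      · exact Exec.caseFalse rfl (Exec.seq (Exec.pushA _ _ _ _ _) (Exec.pushA _ _ _ _ _))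
      · exact Exec.caseTrue rfl (Exec.seq (Exec.pushA _ _ _ _ _) (Exec.pushA _ _ _ _ _))
    have h3 := Exec.loopTrue (k := .B) (S := ⟨code n ++ a, fl (x :: l) b, c, d⟩) rfl h2 h
    have e : n + (x :: l).length = n + 1 + l.length := by simp; omega
    rw [e, List.length_cons]
    exact h3.mono (by omega)

/-- The size of the code is computable (in unary). -/
theorem PolyTime.sz' : PolyTime (fun x : α => sz x) := by
  refine PolyTime.mk (.seq parseAB (.seq (.push .A false) (.loop .B (.case .B .skip
      (.seq (.push .A false) (.push .A true)) (.seq (.push .A false) (.push .A true))))))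
    (s := fun x => (9 * sz x + 7) + (1 + (5 * sz x + 1) + 1) + 1) (by fun_prop)
    fun x a b c d => ?_
  have h1 := parseAB_exec (Enc.toD x) a b c d
  have h2 := Exec.pushA false a (fl (Enc.toD x).enc.reverse b) c d
  have h3 := countLoop_exec (Enc.toD x).enc.reverse 0 a b c d
  rw [Nat.zero_add, List.length_reverse] at h3
  exact h1.seq (h2.seq h3)

@[fun_prop]
theorem PolyTime.size {f : α → β} (hf : PolyTime f) : PolyTime (fun x => sz (f x)) :=
  PolyTime.sz'.comp hf

/-- Folding over a list, when all intermediate accumulators have polynomial size. -/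
theorem PolyTime.foldl {l : α → List β} {g : α → γ → β → γ} {y : α → γ}
    (hl : PolyTime l) (hg : PolyTime (fun p : α × (γ × β) => g p.1 p.2.1 p.2.2))
    (hy : PolyTime y) {s : α → ℕ} (hs : PBdd s)
    (hb : ∀ x i, sz (((l x).take i).foldl (g x) (y x)) ≤ s x) :
    PolyTime (fun x => (l x).foldl (g x) (y x)) := by
  have hstep : PolyTime (fun p : α × (List β × γ) => foldStep g p.1 p.2) := by
    refine PolyTime.listCases (l := fun p : α × (List β × γ) => p.2.1)
      (f := fun p => p.2) (g := fun p h t => (t, g p.1 p.2.2 h)) (by fun_prop) (by fun_prop) ?_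
    fun_prop
  have h := PolyTime.iterate' (f := foldStep g) (n := fun x => sz (l x))
    (g := fun x => (l x, y x))
    hstep (by fun_prop) (by fun_prop) (s := fun x => sz (l x) + s x + 1)
    (by have := hl.pbdd; fun_prop) (fun x i _ => by
      rw [foldStep_iterate, sz_prod]
      have h1 := hb x i
      have h2 : sz ((l x).drop i) ≤ sz (l x) := sz_le_of_sublist (List.drop_sublist _ _)
      simp only
      omega)
  refine (PolyTime.snd h).congr fun x => ?_
  rw [foldStep_iterate]
  simp only
  rw [List.take_of_length_le (length_le_sz _)]

/-- Folding when the accumulator grows additively by a polynomially bounded amount. -/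
theorem PolyTime.foldl_add {l : α → List β} {g : α → γ → β → γ} {y : α → γ}
    (hl : PolyTime l) (hg : PolyTime (fun p : α × (γ × β) => g p.1 p.2.1 p.2.2))
    (hy : PolyTime y) {s : α → ℕ} (hs : PBdd s)
    (hb : ∀ x, ∀ b ∈ l x, ∀ c, sz (g x c b) ≤ sz c + s x) :
    PolyTime (fun x => (l x).foldl (g x) (y x)) := by
  have h1 := hy.pbdd
  have h2 := hl.pbdd
  refine PolyTime.foldl hl hg hy (s := fun x => sz (y x) + sz (l x) * s x) (by fun_prop)
    fun x i => ?_
  have key : ∀ (m : List β) (c : γ), (∀ b ∈ m, b ∈ l x) →
      sz (m.foldl (g x) c) ≤ sz c + m.length * s x := by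
    intro m
    induction m with
    | nil => intro c _; simp
    | cons b m ih =>
      intro c hm
      have h3 := ih (g x c b) fun b' hb' => hm b' (by simp [hb'])
      have h4 := hb x b (hm b (by simp)) c
      rw [List.foldl_cons, List.length_cons, Nat.add_mul]
      omega
  have h3 := key ((l x).take i) (y x) fun b hb => List.mem_of_mem_take hb
  have h4 : ((l x).take i).length ≤ sz (l x) :=
    (List.take_sublist i (l x)).length_le.trans (length_le_sz _)
  have h5 := Nat.mul_le_mul_right (s x) h4
  omega

@[fun_prop]
theorem PolyTime.length {l : α → List β} (hl : PolyTime l) :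
    PolyTime (fun x => (l x).length) := by
  have h := PolyTime.foldl_add (γ := ℕ) hl (g := fun _ c _ => c + 1) (y := fun _ => 0)
    (by fun_prop) (by fun_prop) (s := fun _ => 2) (by fun_prop)
    (fun x b _ c => by simp only [sz_nat]; omega)
  refine h.congr fun x => ?_
  have : ∀ (m : List β) (c : ℕ), m.foldl (fun c _ => c + 1) c = m.length + c := by
    intro m
    induction m with
    | nil => intro c; simp
    | cons b m ih => intro c; simp only [List.foldl_cons, ih, List.length_cons]; omega
  rw [this, Nat.add_zero]

@[fun_prop]
theorem PolyTime.reverse {l : α → List β} (hl : PolyTime l) :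
    PolyTime (fun x => (l x).reverse) := by
  have h2 := hl.pbdd
  have h := PolyTime.foldl_add (γ := List β) hl (g := fun _ c b => b :: c) (y := fun _ => [])
    (by fun_prop) (by fun_prop) (s := fun x => sz (l x) + 1) (by fun_prop)
    (fun x b hb c => by
      have := sz_le_of_mem hb
      simp only [sz_cons]; omega)
  refine h.congr fun x => ?_
  have : ∀ (m c : List β), m.foldl (fun c b => b :: c) c = m.reverse ++ c := by
    intro m
    induction m with
    | nil => intro c; simp
    | cons b m ih => intro c; simp only [List.foldl_cons, ih]; simp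
  rw [this, List.append_nil]

@[fun_prop]
theorem PolyTime.append {l m : α → List β} (hl : PolyTime l) (hm : PolyTime m) :
    PolyTime (fun x => l x ++ m x) := by
  have h2 := hl.pbdd
  have h := PolyTime.foldl_add (γ := List β) hl.reverse (g := fun _ c b => b :: c) (y := m)
    (by fun_prop) hm (s := fun x => sz (l x) + 1) (by fun_prop)
    (fun x b hb c => by
      have := sz_le_of_mem (List.mem_reverse.1 hb)
      simp only [sz_cons]; omega)
  refine h.congr fun x => ?_
  have : ∀ (m c : List β), m.foldl (fun c b => b :: c) c = m.reverse ++ c := by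
    intro m
    induction m with
    | nil => intro c; simp
    | cons b m ih => intro c; simp only [List.foldl_cons, ih]; simp
  rw [this, List.reverse_reverse]

/-- Bound for a two-argument polynomial-time function with the second argument in a list. -/
theorem PolyTime.bound_mem {l : α → List β} {g : α → β → γ} (hl : PolyTime l)
    (hg : PolyTime (fun p : α × β => g p.1 p.2)) :
    ∃ s : α → ℕ, PBdd s ∧ ∀ x, ∀ b ∈ l x, sz (g x b) ≤ s x := by
  obtain ⟨P, hP⟩ := hg.pbdd
  have h2 := hl.pbdd
  refine ⟨fun x => P.eval (sz x + sz (l x) + 1), PBdd.eval (by fun_prop) P, fun x b hb => ?_⟩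
  refine (hP (x, b)).trans (eval_mono P ?_)
  have := sz_le_of_mem hb
  rw [sz_prod]
  simp only
  omega

theorem PolyTime.map {l : α → List β} {g : α → β → γ} (hl : PolyTime l)
    (hg : PolyTime (fun p : α × β => g p.1 p.2)) :
    PolyTime (fun x => (l x).map (g x)) := by
  obtain ⟨s, hs, hb⟩ := PolyTime.bound_mem hl hg
  have h := PolyTime.foldl_add (γ := List γ) hl.reverse (g := fun x c b => g x b :: c)
    (y := fun _ => []) (by fun_prop) (by fun_prop) (s := fun x => s x + 1) (by fun_prop)
    (fun x b hb' c => by
      have := hb x b (List.mem_reverse.1 hb')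
      simp only [sz_cons]; omega)
  refine h.congr fun x => ?_
  have : ∀ (m : List β) (c : List γ), m.foldl (fun c b => g x b :: c) c =
      (m.map (g x)).reverse ++ c := by
    intro m
    induction m with
    | nil => intro c; simp
    | cons b m ih => intro c; simp only [List.foldl_cons, ih]; simp
  rw [this, List.append_nil, List.map_reverse, List.reverse_reverse]

theorem PolyTime.filter {l : α → List β} {g : α → β → Bool} (hl : PolyTime l)
    (hg : PolyTime (fun p : α × β => g p.1 p.2)) :
    PolyTime (fun x => (l x).filter (g x)) := by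
  have h2 := hl.pbdd
  have h := PolyTime.foldl_add (γ := List β) hl.reverse
    (g := fun x c b => bif g x b then b :: c else c)
    (y := fun _ => []) (PolyTime.cond (by fun_prop) (by fun_prop) (by fun_prop)) (by fun_prop)
    (s := fun x => sz (l x) + 1) (by fun_prop)
    (fun x b hb' c => by
      have := sz_le_of_mem (List.mem_reverse.1 hb')
      cases g x b
      · simp only [cond_false]; omega
      · simp only [cond_true, sz_cons]; omega)
  refine h.congr fun x => ?_
  have : ∀ (m : List β) (c : List β), m.foldl (fun c b => bif g x b then b :: c else c) c =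
      (m.filter (g x)).reverse ++ c := by
    intro m
    induction m with
    | nil => intro c; simp
    | cons b m ih =>
      intro c
      simp only [List.foldl_cons, ih]
      cases h : g x b <;> simp [h]
  rw [this, List.append_nil, List.filter_reverse, List.reverse_reverse]

theorem PolyTime.flatten' {l : α → List (List β)} (hl : PolyTime l) :
    PolyTime (fun x => (l x).flatten) := by
  have h2 := hl.pbdd
  have h := PolyTime.foldl_add (γ := List β) hl.reverse
    (g := fun _ c b => b ++ c)
    (y := fun _ => []) (by fun_prop) (by fun_prop)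
    (s := fun x => sz (l x)) (by fun_prop)
    (fun x b hb' c => by
      have := sz_le_of_mem (List.mem_reverse.1 hb')
      have := sz_append_le b c
      omega)
  refine h.congr fun x => ?_
  have : ∀ (m : List (List β)) (c : List β), m.foldl (fun c b => b ++ c) c =
      m.reverse.flatten ++ c := by
    intro m
    induction m with
    | nil => intro c; simp
    | cons b m ih =>
      intro c
      simp only [List.foldl_cons, ih]
      simp
  rw [this, List.append_nil, List.reverse_reverse]

@[fun_prop]
theorem PolyTime.flatten {l : α → List (List β)} (hl : PolyTime l) :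
    PolyTime (fun x => (l x).flatten) := hl.flatten'

theorem PolyTime.flatMap {l : α → List β} {g : α → β → List γ} (hl : PolyTime l)
    (hg : PolyTime (fun p : α × β => g p.1 p.2)) :
    PolyTime (fun x => (l x).flatMap (g x)) :=
  (PolyTime.map hl hg).flatten.congr fun x => by rw [List.flatMap_def]

theorem PolyTime.foldl_const {l : α → List β} {g : α → γ → β → γ} {y : α → γ}
    (hl : PolyTime l) (hg : PolyTime (fun p : α × (γ × β) => g p.1 p.2.1 p.2.2))
    (hy : PolyTime y) {s : α → ℕ} (hs : PBdd s)
    (hb : ∀ x c b, sz (g x c b) ≤ s x) :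
    PolyTime (fun x => (l x).foldl (g x) (y x)) :=
  PolyTime.foldl_add hl hg hy hs fun x b _ c => (hb x c b).trans (Nat.le_add_left _ _)

theorem PolyTime.any {l : α → List β} {g : α → β → Bool} (hl : PolyTime l)
    (hg : PolyTime (fun p : α × β => g p.1 p.2)) :
    PolyTime (fun x => (l x).any (g x)) := by
  have h := PolyTime.foldl_const (γ := Bool) hl (g := fun x c b => c || g x b)
    (y := fun _ => false) (by fun_prop) (by fun_prop) (s := fun _ => 3) (by fun_prop)
    (fun x c b => sz_bool _)
  refine h.congr fun x => ?_
  have : ∀ (m : List β) (c : Bool), m.foldl (fun c b => c || g x b) c = (c || m.any (g x)) := by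
    intro m
    induction m with
    | nil => intro c; simp
    | cons b m ih => intro c; simp only [List.foldl_cons, ih, List.any_cons, Bool.or_assoc]
  rw [this, Bool.false_or]

theorem PolyTime.all {l : α → List β} {g : α → β → Bool} (hl : PolyTime l)
    (hg : PolyTime (fun p : α × β => g p.1 p.2)) :
    PolyTime (fun x => (l x).all (g x)) := by
  refine (PolyTime.any hl (g := fun x b => !(g x b)) (by fun_prop)).not.congr fun x => ?_
  rw [List.any_eq_not_all_not]
  simp

theorem PolyTime.decide_forall_mem {l : α → List β} {P : α → β → Prop}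
    [∀ x, DecidablePred (P x)] (hl : PolyTime l)
    (hg : PolyTime (fun p : α × β => decide (P p.1 p.2))) :
    PolyTime (fun x => decide (∀ b ∈ l x, P x b)) :=
  (PolyTime.all (g := fun x b => decide (P x b)) hl hg).congr fun x => by
    rw [Bool.eq_iff_iff]; simp

theorem PolyTime.decide_exists_mem {l : α → List β} {P : α → β → Prop}
    [∀ x, DecidablePred (P x)] (hl : PolyTime l)
    (hg : PolyTime (fun p : α × β => decide (P p.1 p.2))) :
    PolyTime (fun x => decide (∃ b ∈ l x, P x b)) :=
  (PolyTime.any (g := fun x b => decide (P x b)) hl hg).congr fun x => by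
    rw [Bool.eq_iff_iff]; simp

@[fun_prop]
theorem PolyTime.isEmpty {l : α → List β} (hl : PolyTime l) :
    PolyTime (fun x => (l x).isEmpty) :=
  (PolyTime.listCases hl (PolyTime.const true) (g := fun _ _ _ => false)
    (PolyTime.const false)).congr fun x => by cases l x <;> rfl

@[fun_prop]
theorem PolyTime.tail {l : α → List β} (hl : PolyTime l) :
    PolyTime (fun x => (l x).tail) :=
  (PolyTime.listCases hl (PolyTime.const []) (g := fun _ _ t => t)
    (by fun_prop)).congr fun x => by cases l x <;> rfl

@[fun_prop]
theorem PolyTime.headD {l : α → List β} {f : α → β} (hl : PolyTime l) (hf : PolyTime f) :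
    PolyTime (fun x => (l x).headD (f x)) :=
  (PolyTime.listCases hl hf (g := fun _ h _ => h)
    (by fun_prop)).congr fun x => by cases l x <;> rfl

/-! ### Equality test -/

/-- One step of the equality test. -/
def eqStep (s : List (Dt × Dt) × Bool) : List (Dt × Dt) × Bool :=
  List.casesOn (motive := fun _ => List (Dt × Dt) × Bool) s.1 s fun p r =>
    Dt.casesOn (motive := fun _ => List (Dt × Dt) × Bool) p.1
      (Dt.casesOn (motive := fun _ => List (Dt × Dt) × Bool) p.2 (r, s.2)
        fun _ _ => ([], false))
      fun u v => Dt.casesOn (motive := fun _ => List (Dt × Dt) × Bool) p.2 ([], false)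
        fun u' v' => ((u, u') :: (v, v') :: r, s.2)

theorem eqStep_polyTime : PolyTime eqStep := by
  unfold eqStep
  refine PolyTime.listCases (l := fun s : List (Dt × Dt) × Bool => s.1) (by fun_prop)
    (by fun_prop) (g := fun s (p : Dt × Dt) r => Dt.casesOn (motive := fun _ => List (Dt × Dt) × Bool) p.1
      (Dt.casesOn (motive := fun _ => List (Dt × Dt) × Bool) p.2 (r, s.2)
        fun _ _ => ([], false))
      fun u v => Dt.casesOn (motive := fun _ => List (Dt × Dt) × Bool) p.2 ([], false)
        fun u' v' => ((u, u') :: (v, v') :: r, s.2)) ?_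
  refine PolyTime.dtCases (by fun_prop) (PolyTime.dtCases (by fun_prop) (by fun_prop)
    (g := fun _ _ _ => ([], false)) (by fun_prop)) (g := fun
      (q : (List (Dt × Dt) × Bool) × ((Dt × Dt) × List (Dt × Dt))) u v =>
      Dt.casesOn (motive := fun _ => List (Dt × Dt) × Bool) q.2.1.2 ([], false)
        fun u' v' => ((u, u') :: (v, v') :: q.2.2, q.1.2)) ?_
  exact PolyTime.dtCases (by fun_prop) (by fun_prop)
    (g := fun (q : ((List (Dt × Dt) × Bool) × ((Dt × Dt) × List (Dt × Dt))) × (Dt × Dt))
      u' v' => ((q.2.1, u') :: (q.2.2, v') :: q.1.2.2, q.1.1.2)) (by fun_prop)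

theorem eqStep_sz (s : List (Dt × Dt) × Bool) : sz (eqStep s) ≤ sz s := by
  obtain ⟨l, b⟩ := s
  have hf : sz false = 1 := rfl
  have hbp := sz_pos b
  cases l with
  | nil => exact le_rfl
  | cons p r =>
    obtain ⟨x, y⟩ := p
    cases x with
    | nil =>
      cases y with
      | nil =>
        change sz (r, b) ≤ _
        simp only [sz_prod, sz_cons]; omega
      | cons u' v' =>
        change sz (([] : List (Dt × Dt)), false) ≤ _
        simp only [sz_prod, sz_cons, sz_nil, hf]; omega
    | cons u v =>
      cases y with
      | nil =>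
        change sz (([] : List (Dt × Dt)), false) ≤ _
        simp only [sz_prod, sz_cons, sz_nil, hf]; omega
      | cons u' v' =>
        change sz ((u, u') :: (v, v') :: r, b) ≤ _
        have e1 : sz (Dt.cons u v) = sz u + sz v + 1 := by simp [sz, code, Enc.toD]
        have e2 : sz (Dt.cons u' v') = sz u' + sz v' + 1 := by simp [sz, code, Enc.toD]
        simp only [sz_prod, sz_cons, e1, e2]; omega

theorem eqStep_iterate_sz (i : ℕ) : ∀ s, sz (eqStep^[i] s) ≤ sz s := by
  induction i with
  | zero => intro s; exact le_rfl
  | succ i ih =>
    intro s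
    rw [Function.iterate_succ_apply]
    exact (ih _).trans (eqStep_sz s)

theorem eqStep_correct (n : ℕ) : ∀ (l : List (Dt × Dt)) (b : Bool),
    (l.map fun p => sz p.1).sum ≤ n →
    eqStep^[n] (l, b) = ([], b && l.all fun p => decide (p.1 = p.2)) := by
  induction n with
  | zero =>
    intro l b h
    cases l with
    | nil => simp
    | cons p r =>
      simp only [List.map_cons, List.sum_cons] at h
      have := sz_pos p.1
      omega
  | succ n ih =>
    intro l b h
    rw [Function.iterate_succ_apply]
    cases l with
    | nil =>
      change eqStep^[n] ([], b) = _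
      rw [ih [] b (by simp)]
    | cons p r =>
      obtain ⟨x, y⟩ := p
      simp only [List.map_cons, List.sum_cons] at h
      cases x with
      | nil =>
        have e0 : sz Dt.nil = 1 := rfl
        rw [e0] at h
        cases y with
        | nil =>
          change eqStep^[n] (r, b) = _
          rw [ih r b (by omega)]
          simp
        | cons u' v' =>
          change eqStep^[n] ([], false) = _
          rw [ih [] false (by simp)]
          simp
      | cons u v =>
        have e1 : sz (Dt.cons u v) = sz u + sz v + 1 := by simp [sz, code, Enc.toD]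
        rw [e1] at h
        cases y with
        | nil =>
          change eqStep^[n] ([], false) = _
          rw [ih [] false (by simp)]
          simp
        | cons u' v' =>
          change eqStep^[n] ((u, u') :: (v, v') :: r, b) = _
          rw [ih _ b (by simp only [List.map_cons, List.sum_cons]; omega)]
          simp only [List.all_cons, Dt.cons.injEq, Bool.decide_and, Bool.and_assoc]

theorem PolyTime.dtEq : PolyTime (fun p : Dt × Dt => decide (p.1 = p.2)) := by
  have h := PolyTime.iterate (f := eqStep) (n := fun p : Dt × Dt => sz p)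
    (g := fun p => ([p], true)) eqStep_polyTime (by fun_prop) (by fun_prop)
    (s := fun p => sz ([p], true)) ((PolyTime.pbdd (by fun_prop)))
    (fun x i _ => eqStep_iterate_sz i _)
  refine (PolyTime.snd h).congr fun p => ?_
  rw [eqStep_correct _ _ _ (by
    simp only [List.map_cons, List.map_nil, List.sum_cons, List.sum_nil, sz_prod]; omega)]
  simp

/-- Equality is polynomial time for every coded type. -/
@[fun_prop]
theorem PolyTime.decide_eq [DecidableEq β] {f g : α → β} (hf : PolyTime f) (hg : PolyTime g) :
    PolyTime (fun x => decide (f x = g x)) := by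
  have e : PolyTime (fun y : β => Enc.toD y) := PolyTime.of_toD fun _ => rfl
  refine (PolyTime.dtEq.comp ((e.comp hf).pair (e.comp hg))).congr fun x => ?_
  simp only [Enc.inj.eq_iff]

@[fun_prop]
theorem PolyTime.beq [BEq β] [LawfulBEq β] {f g : α → β} (hf : PolyTime f) (hg : PolyTime g) :
    PolyTime (fun x => f x == g x) := by
  classical
  refine (PolyTime.decide_eq hf hg).congr fun x => ?_
  rw [Bool.eq_iff_iff]
  simp

end Pool.Agent.SemiTrans.PT
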