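import Pool.Agent.SemiTrans.PT.Machine

/-!
# Compilation of structured stack programs to `Turing.FinTM2`
-/

namespace Pool.Agent.SemiTrans.PT

open Turing StateTransition

/-- Continuation labels used by the program `p` followed by `r` (excluding `r` itself). -/
def labs : Cmd → List Cmd → Set (List Cmd)
  | .skip, r => {Cmd.skip :: r}
  | .push k x, r => {Cmd.push k x :: r}
  | .seq p q, r => insert (Cmd.seq p q :: r) (labs p (q :: r) ∪ labs q r)
  | .case k p q s, r => insert (Cmd.case k p q s :: r) (labs p r ∪ (labs q r ∪ labs s r))
  | .loop k p, r => insert (Cmd.loop k p :: r) (labs p (Cmd.loop k p :: r))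

theorem labs_finite (p : Cmd) : ∀ r, (labs p r).Finite := by
  induction p with
  | skip => intro r; exact Set.finite_singleton _
  | push k x => intro r; exact Set.finite_singleton _
  | seq p q ihp ihq => intro r; exact ((ihp _).union (ihq _)).insert _
  | case k p q s ihp ihq ihs => intro r; exact ((ihp _).union ((ihq _).union (ihs _))).insert _
  | loop k p ih => intro r; exact (ih _).insert _

theorem self_mem_labs (p : Cmd) (r : List Cmd) : p :: r ∈ labs p r := by
  cases p <;> simp [labs]

/-- The set of labels of the compiled program. -/
def allLabs (p : Cmd) : Set (List Cmd) := insert [] (labs p [])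

/-- Restrict a continuation to the label set. -/
noncomputable def toLab (p : Cmd) (l : List Cmd) : allLabs p :=
  open Classical in if h : l ∈ allLabs p then ⟨l, h⟩ else ⟨[], Set.mem_insert _ _⟩

theorem toLab_val (p : Cmd) {l : List Cmd} (h : l ∈ allLabs p) : (toLab p l).1 = l := by
  simp [toLab, h]

/-- The statement executed at a continuation label. -/
noncomputable def stmtOf (p : Cmd) : List Cmd →
    TM2.Stmt (fun _ : Stk => Bool) (allLabs p) (Option Bool)
  | [] => .load (fun _ => none) .halt
  | .skip :: r => .goto fun _ => toLab p r
  | .push k x :: r => .push k (fun _ => x) (.goto fun _ => toLab p r)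
  | .seq u v :: r => .goto fun _ => toLab p (u :: v :: r)
  | .case k u v w :: r => .pop k (fun _ o => o)
      (.goto fun o => match o with
        | none => toLab p (u :: r)
        | some false => toLab p (v :: r)
        | some true => toLab p (w :: r))
  | .loop k u :: r => .pop k (fun _ o => o)
      (.goto fun o => match o with
        | some true => toLab p (u :: .loop k u :: r)
        | _ => toLab p r)

/-- The compiled machine; input and output on stack `D`. -/
noncomputable def machine (p : Cmd) : FinTM2 where
  K := Stk
  k₀ := .D
  k₁ := .D
  Γ := fun _ => Bool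
  Λ := allLabs p
  main := toLab p [p]
  ΛFin := ((labs_finite p []).insert _).fintype
  σ := Option Bool
  initialState := none
  m := fun l => stmtOf p l.1

/-- Configurations of the compiled machine. -/
noncomputable def conf (p : Cmd) (l : List Cmd) (v : Option Bool) (S : St) : (machine p).Cfg :=
  (⟨some (toLab p l), v, S.get⟩ : TM2.Cfg (fun _ : Stk => Bool) (allLabs p) (Option Bool))

theorem step_conf (p : Cmd) (l : List Cmd) (hl : l ∈ allLabs p) (v : Option Bool) (S : St) :
    (machine p).step (conf p l v S) =
      some (TM2.stepAux (K := Stk) (Γ := fun _ => Bool) (Λ := allLabs p) (σ := Option Bool)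
        (stmtOf p l) v S.get) := by
  have h : (toLab p l).1 = l := toLab_val p hl
  change some (TM2.stepAux (K := Stk) (Γ := fun _ => Bool) (Λ := allLabs p) (σ := Option Bool)
        (stmtOf p (toLab p l).1) v S.get) = _
  rw [h]

theorem labs_sub_step {p : Cmd} (q : Cmd) : ∀ r, labs q r ⊆ allLabs p → r ∈ allLabs p →
    q :: r ∈ allLabs p := fun _ h _ => h (self_mem_labs _ _)

/-- Main simulation lemma. -/
theorem sim (p : Cmd) {q : Cmd} {S S' : St} {t : ℕ} (h : Run q S S' t) :
    ∀ r (v : Option Bool), labs q r ⊆ allLabs p → r ∈ allLabs p →
      ∃ v', (flip bind (machine p).step)^[t] (some (conf p (q :: r) v S)) =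
        some (conf p r v' S') := by
  induction h with
  | skip S =>
    intro r v hl hr
    refine ⟨v, ?_⟩
    have hm := labs_sub_step _ r hl hr
    simp only [Function.iterate_one]
    change (machine p).step (conf p _ v S) = _
    rw [step_conf p _ hm]
    rfl
  | push k x S =>
    intro r v hl hr
    refine ⟨v, ?_⟩
    have hm := labs_sub_step _ r hl hr
    simp only [Function.iterate_one]
    change (machine p).step (conf p _ v S) = _
    rw [step_conf p _ hm]
    simp only [conf, St.get_set]
    rfl
  | @seq u w S S' S'' t t' _ _ ih1 ih2 =>
    intro r v hl hr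
    have hm := labs_sub_step _ r hl hr
    have hw : labs w r ⊆ allLabs p := fun x hx => hl (by simp [labs, hx])
    have hu : labs u (w :: r) ⊆ allLabs p := fun x hx => hl (by simp [labs, hx])
    have hwr := labs_sub_step _ r hw hr
    obtain ⟨v1, h1⟩ := ih1 (w :: r) v hu hwr
    obtain ⟨v2, h2⟩ := ih2 r v1 hw hr
    refine ⟨v2, ?_⟩
    have e : t + t' + 1 = t' + (t + 1) := by ring
    rw [e, Function.iterate_add_apply, Function.iterate_add_apply, Function.iterate_one]
    have hs : flip bind (machine p).step (some (conf p (Cmd.seq u w :: r) v S)) =
        some (conf p (u :: w :: r) v S) := by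
      change (machine p).step (conf p _ v S) = _
      rw [step_conf p _ hm]
      rfl
    rw [hs, h1, h2]
  | @caseNone k u w s S S' t hg _ ih =>
    intro r v hl hr
    have hm := labs_sub_step _ r hl hr
    have hu : labs u r ⊆ allLabs p := fun x hx => hl (by simp [labs, hx])
    obtain ⟨v1, h1⟩ := ih r none hu hr
    refine ⟨v1, ?_⟩
    rw [Function.iterate_add_apply, Function.iterate_one]
    have hs : flip bind (machine p).step (some (conf p (Cmd.case k u w s :: r) v S)) =
        some (conf p (u :: r) none S) := by
      change (machine p).step (conf p _ v S) = _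
      rw [step_conf p _ hm]
      simp only [stmtOf, TM2.stepAux, hg, List.head?_nil, List.tail_nil]
      have : Function.update S.get k [] = S.get := by
        rw [← hg]; exact Function.update_eq_self _ _
      rw [this]
      rfl
    rw [hs, h1]
  | @caseFalse k u w s S S' l t hg _ ih =>
    intro r v hl hr
    have hm := labs_sub_step _ r hl hr
    have hu : labs w r ⊆ allLabs p := fun x hx => hl (by simp [labs, hx])
    obtain ⟨v1, h1⟩ := ih r (some false) hu hr
    refine ⟨v1, ?_⟩
    rw [Function.iterate_add_apply, Function.iterate_one]
    have hs : flip bind (machine p).step (some (conf p (Cmd.case k u w s :: r) v S)) =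
        some (conf p (w :: r) (some false) (S.set k l)) := by
      change (machine p).step (conf p _ v S) = _
      rw [step_conf p _ hm]
      simp only [stmtOf, TM2.stepAux, hg, List.head?_cons, List.tail_cons]
      rw [← St.get_set]
      rfl
    rw [hs, h1]
  | @caseTrue k u w s S S' l t hg _ ih =>
    intro r v hl hr
    have hm := labs_sub_step _ r hl hr
    have hu : labs s r ⊆ allLabs p := fun x hx => hl (by simp [labs, hx])
    obtain ⟨v1, h1⟩ := ih r (some true) hu hr
    refine ⟨v1, ?_⟩
    rw [Function.iterate_add_apply, Function.iterate_one]
    have hs : flip bind (machine p).step (some (conf p (Cmd.case k u w s :: r) v S)) =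
        some (conf p (s :: r) (some true) (S.set k l)) := by
      change (machine p).step (conf p _ v S) = _
      rw [step_conf p _ hm]
      simp only [stmtOf, TM2.stepAux, hg, List.head?_cons, List.tail_cons]
      rw [← St.get_set]
      rfl
    rw [hs, h1]
  | @loopNone k u S hg =>
    intro r v hl hr
    have hm := labs_sub_step _ r hl hr
    refine ⟨none, ?_⟩
    simp only [Function.iterate_one]
    change (machine p).step (conf p _ v S) = _
    rw [step_conf p _ hm]
    simp only [stmtOf, TM2.stepAux, hg, List.head?_nil, List.tail_nil]
    have : Function.update S.get k [] = S.get := by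
      rw [← hg]; exact Function.update_eq_self _ _
    rw [this]
    rfl
  | @loopFalse k u S l hg =>
    intro r v hl hr
    have hm := labs_sub_step _ r hl hr
    refine ⟨some false, ?_⟩
    simp only [Function.iterate_one]
    change (machine p).step (conf p _ v S) = _
    rw [step_conf p _ hm]
    simp only [stmtOf, TM2.stepAux, hg, List.head?_cons, List.tail_cons]
    rw [← St.get_set]
    rfl
  | @loopTrue k u S S' S'' l t t' hg _ _ ih1 ih2 =>
    intro r v hl hr
    have hm := labs_sub_step _ r hl hr
    have hu : labs u (Cmd.loop k u :: r) ⊆ allLabs p := fun x hx => hl (by simp [labs, hx])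
    obtain ⟨v1, h1⟩ := ih1 (Cmd.loop k u :: r) (some true) hu hm
    obtain ⟨v2, h2⟩ := ih2 r v1 hl hr
    refine ⟨v2, ?_⟩
    have e : t + t' + 1 = t' + (t + 1) := by ring
    rw [e, Function.iterate_add_apply, Function.iterate_add_apply, Function.iterate_one]
    have hs : flip bind (machine p).step (some (conf p (Cmd.loop k u :: r) v S)) =
        some (conf p (u :: Cmd.loop k u :: r) (some true) (S.set k l)) := by
      change (machine p).step (conf p _ v S) = _
      rw [step_conf p _ hm]
      simp only [stmtOf, TM2.stepAux, hg, List.head?_cons, List.tail_cons]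
      rw [← St.get_set]
      rfl
    rw [hs, h1, h2]

/-- A run from input on `D` to output on `D` gives an output of the compiled machine. -/
theorem outputs_of_run (p : Cmd) {w w' : List Bool} {t : ℕ}
    (h : Run p ⟨[], [], [], w⟩ ⟨[], [], [], w'⟩ t) :
    (flip bind (machine p).step)^[t + 1] (some (initList (machine p) w)) =
      some (haltList (machine p) w') := by
  have hp : labs p [] ⊆ allLabs p := Set.subset_insert _ _
  have hnil : ([] : List Cmd) ∈ allLabs p := Set.mem_insert _ _
  obtain ⟨v', hv⟩ := sim p h [] none hp hnil
  have hinit : initList (machine p) w = conf p [p] none ⟨[], [], [], w⟩ := by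
    unfold initList conf
    congr 1
    funext k
    cases k <;> rfl
  have hhalt : (machine p).step (conf p [] v' ⟨[], [], [], w'⟩) =
      some (haltList (machine p) w') := by
    rw [step_conf p _ hnil]
    simp only [stmtOf, TM2.stepAux]
    congr 1
    unfold haltList
    congr 1
    funext k
    cases k <;> rfl
  rw [add_comm t 1, Function.iterate_add_apply, hinit, hv, Function.iterate_one]
  exact hhalt

end Pool.Agent.SemiTrans.PT
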