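import Mathlib

/-!
# Structured stack programs

A tiny structured language on four stacks of bits, with a step-counting big-step semantics.
It is compiled to Mathlib's multi-stack machines `Turing.FinTM2` in `Pool.Agent.SemiTrans.PT.Compile`.
-/

namespace Pool.Agent.SemiTrans.PT

/-- Names of the four stacks. -/
inductive Stk
  | A | B | C | D
  deriving DecidableEq

instance : Fintype Stk where
  elems := {.A, .B, .C, .D}
  complete := by intro x; cases x <;> simp

/-- Contents of the four stacks. -/
@[ext]
structure St where
  a : List Bool
  b : List Bool
  c : List Bool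
  d : List Bool

/-- Contents of stack `k`. -/
def St.get (S : St) (k : Stk) : List Bool :=
  match k with
  | .A => S.a
  | .B => S.b
  | .C => S.c
  | .D => S.d

/-- Replace the contents of stack `k`. -/
def St.set (S : St) (k : Stk) (l : List Bool) : St :=
  match k with
  | .A => ⟨l, S.b, S.c, S.d⟩
  | .B => ⟨S.a, l, S.c, S.d⟩
  | .C => ⟨S.a, S.b, l, S.d⟩
  | .D => ⟨S.a, S.b, S.c, l⟩

/-- Total length of the four stacks. -/
def St.len (S : St) : ℕ := S.a.length + S.b.length + S.c.length + S.d.length

theorem St.get_set (S : St) (k : Stk) (l : List Bool) :
    (S.set k l).get = Function.update S.get k l := by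
  funext j
  cases k <;> cases j <;> rfl

theorem St.len_set (S : St) (k : Stk) (l : List Bool) :
    (S.set k l).len + (S.get k).length = S.len + l.length := by
  cases k <;> simp [St.set, St.get, St.len] <;> omega

/-- Structured programs. -/
inductive Cmd
  /-- do nothing -/
  | skip : Cmd
  /-- push a bit -/
  | push : Stk → Bool → Cmd
  /-- sequential composition -/
  | seq : Cmd → Cmd → Cmd
  /-- pop a stack; continue according to `empty / false / true` -/
  | case : Stk → Cmd → Cmd → Cmd → Cmd
  /-- pop a stack; if the bit is `true`, run the body and repeat, otherwise stop -/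
  | loop : Stk → Cmd → Cmd

/-- Big-step semantics with the exact number of steps. -/
inductive Run : Cmd → St → St → ℕ → Prop
  | skip (S : St) : Run .skip S S 1
  | push (k : Stk) (x : Bool) (S : St) : Run (.push k x) S (S.set k (x :: S.get k)) 1
  | seq {p q : Cmd} {S S' S'' : St} {t t' : ℕ} :
      Run p S S' t → Run q S' S'' t' → Run (.seq p q) S S'' (t + t' + 1)
  | caseNone {k : Stk} {p q r : Cmd} {S S' : St} {t : ℕ} :
      S.get k = [] → Run p S S' t → Run (.case k p q r) S S' (t + 1)
  | caseFalse {k : Stk} {p q r : Cmd} {S S' : St} {l : List Bool} {t : ℕ} :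
      S.get k = false :: l → Run q (S.set k l) S' t → Run (.case k p q r) S S' (t + 1)
  | caseTrue {k : Stk} {p q r : Cmd} {S S' : St} {l : List Bool} {t : ℕ} :
      S.get k = true :: l → Run r (S.set k l) S' t → Run (.case k p q r) S S' (t + 1)
  | loopNone {k : Stk} {p : Cmd} {S : St} : S.get k = [] → Run (.loop k p) S S 1
  | loopFalse {k : Stk} {p : Cmd} {S : St} {l : List Bool} :
      S.get k = false :: l → Run (.loop k p) S (S.set k l) 1
  | loopTrue {k : Stk} {p : Cmd} {S S' S'' : St} {l : List Bool} {t t' : ℕ} :
      S.get k = true :: l → Run p (S.set k l) S' t → Run (.loop k p) S' S'' t' →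
        Run (.loop k p) S S'' (t + t' + 1)

/-- A program cannot lengthen the stacks by more than its running time. -/
theorem Run.len_le {p : Cmd} {S S' : St} {t : ℕ} (h : Run p S S' t) : S'.len ≤ S.len + t := by
  induction h with
  | skip S => omega
  | push k x S =>
    have := S.len_set k (x :: S.get k)
    simp only [List.length_cons] at this
    omega
  | seq _ _ ih1 ih2 => omega
  | caseNone _ _ ih => omega
  | @caseFalse k p q r S S' l t h1 _ ih =>
    have := S.len_set k l
    rw [h1] at this
    simp only [List.length_cons] at this
    omega
  | @caseTrue k p q r S S' l t h1 _ ih =>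
    have := S.len_set k l
    rw [h1] at this
    simp only [List.length_cons] at this
    omega
  | loopNone _ => omega
  | @loopFalse k p S l h1 =>
    have := S.len_set k l
    rw [h1] at this
    simp only [List.length_cons] at this
    omega
  | @loopTrue k p S S' S'' l t t' h1 _ _ ih1 ih2 =>
    have := S.len_set k l
    rw [h1] at this
    simp only [List.length_cons] at this
    omega

end Pool.Agent.SemiTrans.PT
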