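import Pool.Agent.SemiTrans.PT.Machine

/-!
# Binary trees, their self-delimiting codes, and basic stack programs on codes
-/

namespace Pool.Agent.SemiTrans.PT

/-- Binary trees (S-expressions with a single atom). -/
inductive Dt
  | nil : Dt
  | cons : Dt → Dt → Dt
  deriving DecidableEq

/-- Self-delimiting code of a tree (preorder). -/
def Dt.enc : Dt → List Bool
  | .nil => [false]
  | .cons p q => true :: (p.enc ++ q.enc)

@[simp] theorem Dt.enc_nil : Dt.nil.enc = [false] := rfl
@[simp] theorem Dt.enc_cons (p q : Dt) : (Dt.cons p q).enc = true :: (p.enc ++ q.enc) := rfl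

theorem Dt.enc_length_pos (x : Dt) : 0 < x.enc.length := by
  cases x <;> simp

/-- Codes are prefix free, in a strong form. -/
theorem Dt.enc_append_inj : ∀ {x y : Dt} {u v : List Bool}, x.enc ++ u = y.enc ++ v →
    x = y ∧ u = v := by
  intro x
  induction x with
  | nil =>
    intro y u v h
    cases y with
    | nil => simpa using h
    | cons p q => simp at h
  | cons p q ihp ihq =>
    intro y u v h
    cases y with
    | nil => simp at h
    | cons p' q' =>
      simp only [Dt.enc_cons, List.cons_append, List.append_assoc, List.cons.injEq,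
        true_and] at h
      obtain ⟨rfl, h2⟩ := ihp h
      obtain ⟨rfl, h3⟩ := ihq h2
      exact ⟨rfl, h3⟩

theorem Dt.enc_inj {x y : Dt} (h : x.enc = y.enc) : x = y :=
  (Dt.enc_append_inj (u := []) (v := []) (by simpa using h)).1

/-- Execution within a time bound. -/
def Exec (p : Cmd) (S S' : St) (T : ℕ) : Prop := ∃ t, t ≤ T ∧ Run p S S' t

theorem Exec.mono {p : Cmd} {S S' : St} {T T' : ℕ} (h : Exec p S S' T) (hT : T ≤ T') :
    Exec p S S' T' := by
  obtain ⟨t, ht, hr⟩ := h
  exact ⟨t, ht.trans hT, hr⟩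

theorem Exec.skip (S : St) : Exec .skip S S 1 := ⟨1, le_rfl, Run.skip S⟩

theorem Exec.push (k : Stk) (x : Bool) (S : St) :
    Exec (.push k x) S (S.set k (x :: S.get k)) 1 := ⟨1, le_rfl, Run.push k x S⟩

theorem Exec.pushA (x : Bool) (a b c d : List Bool) :
    Exec (.push .A x) ⟨a, b, c, d⟩ ⟨x :: a, b, c, d⟩ 1 := Exec.push _ _ _
theorem Exec.pushB (x : Bool) (a b c d : List Bool) :
    Exec (.push .B x) ⟨a, b, c, d⟩ ⟨a, x :: b, c, d⟩ 1 := Exec.push _ _ _
theorem Exec.pushC (x : Bool) (a b c d : List Bool) :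
    Exec (.push .C x) ⟨a, b, c, d⟩ ⟨a, b, x :: c, d⟩ 1 := Exec.push _ _ _
theorem Exec.pushD (x : Bool) (a b c d : List Bool) :
    Exec (.push .D x) ⟨a, b, c, d⟩ ⟨a, b, c, x :: d⟩ 1 := Exec.push _ _ _

theorem Exec.seq {p q : Cmd} {S S' S'' : St} {T T' : ℕ} (h : Exec p S S' T)
    (h' : Exec q S' S'' T') : Exec (.seq p q) S S'' (T + T' + 1) := by
  obtain ⟨t, ht, hr⟩ := h
  obtain ⟨t', ht', hr'⟩ := h'
  exact ⟨t + t' + 1, by omega, Run.seq hr hr'⟩

theorem Exec.caseNone {k : Stk} {p q r : Cmd} {S S' : St} {T : ℕ}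
    (hk : S.get k = []) (h : Exec p S S' T) : Exec (.case k p q r) S S' (T + 1) := by
  obtain ⟨t, ht, hr⟩ := h
  exact ⟨t + 1, by omega, Run.caseNone hk hr⟩

theorem Exec.caseFalse {k : Stk} {p q r : Cmd} {S S' : St} {l : List Bool} {T : ℕ}
    (hk : S.get k = false :: l) (h : Exec q (S.set k l) S' T) :
    Exec (.case k p q r) S S' (T + 1) := by
  obtain ⟨t, ht, hr⟩ := h
  exact ⟨t + 1, by omega, Run.caseFalse hk hr⟩

theorem Exec.caseTrue {k : Stk} {p q r : Cmd} {S S' : St} {l : List Bool} {T : ℕ}
    (hk : S.get k = true :: l) (h : Exec r (S.set k l) S' T) :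
    Exec (.case k p q r) S S' (T + 1) := by
  obtain ⟨t, ht, hr⟩ := h
  exact ⟨t + 1, by omega, Run.caseTrue hk hr⟩

theorem Exec.loopNone {k : Stk} {p : Cmd} {S : St} (hk : S.get k = []) :
    Exec (.loop k p) S S 1 := ⟨1, le_rfl, Run.loopNone hk⟩

theorem Exec.loopFalse {k : Stk} {p : Cmd} {S : St} {l : List Bool}
    (hk : S.get k = false :: l) : Exec (.loop k p) S (S.set k l) 1 :=
  ⟨1, le_rfl, Run.loopFalse hk⟩

theorem Exec.loopTrue {k : Stk} {p : Cmd} {S S' S'' : St} {l : List Bool} {T T' : ℕ}
    (hk : S.get k = true :: l) (h : Exec p (S.set k l) S' T)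
    (h' : Exec (.loop k p) S' S'' T') : Exec (.loop k p) S S'' (T + T' + 1) := by
  obtain ⟨t, ht, hr⟩ := h
  obtain ⟨t', ht', hr'⟩ := h'
  exact ⟨t + t' + 1, by omega, Run.loopTrue hk hr hr'⟩

theorem Exec.len_le {p : Cmd} {S S' : St} {T : ℕ} (h : Exec p S S' T) :
    S'.len ≤ S.len + T := by
  obtain ⟨t, ht, hr⟩ := h
  have := hr.len_le
  omega

/-- `fl l b`: the bits of `l`, each preceded by a `true` flag, then `false`, then `b`. -/
def fl : List Bool → List Bool → List Bool
  | [], b => false :: b
  | x :: l, b => true :: x :: fl l b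

/-- Move flagged bits from `B` to `A` (reversing them). -/
def flBA : Cmd := .loop .B (.case .B .skip (.push .A false) (.push .A true))

theorem flBA_exec (l : List Bool) : ∀ (a b c d : List Bool),
    Exec flBA ⟨a, fl l b, c, d⟩ ⟨l.reverse ++ a, b, c, d⟩ (3 * l.length + 1) := by
  induction l with
  | nil => intro a b c d; exact Exec.loopFalse rfl
  | cons x l ih =>
    intro a b c d
    have h := ih (x :: a) b c d
    have h2 : Exec (.case .B .skip (.push .A false) (.push .A true))
        ⟨a, x :: fl l b, c, d⟩ ⟨x :: a, fl l b, c, d⟩ 2 := by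
      cases x
      · exact Exec.caseFalse rfl (Exec.pushA _ _ _ _ _)
      · exact Exec.caseTrue rfl (Exec.pushA _ _ _ _ _)
    have h3 := Exec.loopTrue (k := .B) (S := ⟨a, fl (x :: l) b, c, d⟩) rfl h2 h
    simp only [List.reverse_cons, List.append_assoc, List.singleton_append,
      List.length_cons]
    exact h3.mono (by omega)

/-- Move flagged bits from `B` to `D`, flagged again (reversing them). -/
def flBD : Cmd := .seq (.push .D false)
  (.loop .B (.case .B .skip (.seq (.push .D false) (.push .D true))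
    (.seq (.push .D true) (.push .D true))))

theorem flBD_loop (l : List Bool) : ∀ (m a b c d : List Bool),
    Exec (.loop .B (.case .B .skip (.seq (.push .D false) (.push .D true))
      (.seq (.push .D true) (.push .D true))))
      ⟨a, fl l b, c, fl m d⟩ ⟨a, b, c, fl (l.reverse ++ m) d⟩ (5 * l.length + 1) := by
  induction l with
  | nil => intro m a b c d; exact Exec.loopFalse rfl
  | cons x l ih =>
    intro m a b c d
    have h := ih (x :: m) a b c d
    have h2 : Exec (.case .B .skip (.seq (.push .D false) (.push .D true))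
        (.seq (.push .D true) (.push .D true)))
        ⟨a, x :: fl l b, c, fl m d⟩ ⟨a, fl l b, c, fl (x :: m) d⟩ 4 := by
      cases x
      · exact Exec.caseFalse rfl (Exec.seq (Exec.pushD _ _ _ _ _) (Exec.pushD _ _ _ _ _))
      · exact Exec.caseTrue rfl (Exec.seq (Exec.pushD _ _ _ _ _) (Exec.pushD _ _ _ _ _))
    have h3 := Exec.loopTrue (k := .B) (S := ⟨a, fl (x :: l) b, c, fl m d⟩) rfl h2 h
    simp only [List.reverse_cons, List.append_assoc, List.singleton_append,
      List.length_cons]
    exact h3.mono (by omega)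

theorem flBD_exec (l a b c d : List Bool) :
    Exec flBD ⟨a, fl l b, c, d⟩ ⟨a, b, c, fl l.reverse d⟩ (5 * l.length + 3) := by
  have h := flBD_loop l [] a b c d
  have h2 := Exec.seq (Exec.pushD false a (fl l b) c d) h
  simp only [List.append_nil] at h2
  exact h2.mono (by omega)

/-- Move flagged bits from `D` to `B`, flagged again (reversing them). -/
def flDB : Cmd := .seq (.push .B false)
  (.loop .D (.case .D .skip (.seq (.push .B false) (.push .B true))
    (.seq (.push .B true) (.push .B true))))

theorem flDB_loop (l : List Bool) : ∀ (m a b c d : List Bool),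
    Exec (.loop .D (.case .D .skip (.seq (.push .B false) (.push .B true))
      (.seq (.push .B true) (.push .B true))))
      ⟨a, fl m b, c, fl l d⟩ ⟨a, fl (l.reverse ++ m) b, c, d⟩ (5 * l.length + 1) := by
  induction l with
  | nil => intro m a b c d; exact Exec.loopFalse rfl
  | cons x l ih =>
    intro m a b c d
    have h := ih (x :: m) a b c d
    have h2 : Exec (.case .D .skip (.seq (.push .B false) (.push .B true))
        (.seq (.push .B true) (.push .B true)))
        ⟨a, fl m b, c, x :: fl l d⟩ ⟨a, fl (x :: m) b, c, fl l d⟩ 4 := by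
      cases x
      · exact Exec.caseFalse rfl (Exec.seq (Exec.pushB _ _ _ _ _) (Exec.pushB _ _ _ _ _))
      · exact Exec.caseTrue rfl (Exec.seq (Exec.pushB _ _ _ _ _) (Exec.pushB _ _ _ _ _))
    have h3 := Exec.loopTrue (k := .D) (S := ⟨a, fl m b, c, fl (x :: l) d⟩) rfl h2 h
    simp only [List.reverse_cons, List.append_assoc, List.singleton_append,
      List.length_cons]
    exact h3.mono (by omega)

theorem flDB_exec (l a b c d : List Bool) :
    Exec flDB ⟨a, b, c, fl l d⟩ ⟨a, fl l.reverse b, c, d⟩ (5 * l.length + 3) := by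
  have h := flDB_loop l [] a b c d
  have h2 := Exec.seq (Exec.pushB false a b c (fl l d)) h
  simp only [List.append_nil] at h2
  exact h2.mono (by omega)

/-- Move flagged bits from `B` to `A` and, flagged, to `D` (reversing them). -/
def flBAD : Cmd := .seq (.push .D false)
  (.loop .B (.case .B .skip
    (.seq (.push .A false) (.seq (.push .D false) (.push .D true)))
    (.seq (.push .A true) (.seq (.push .D true) (.push .D true)))))

theorem flBAD_loop (l : List Bool) : ∀ (m a b c d : List Bool),
    Exec (.loop .B (.case .B .skip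
        (.seq (.push .A false) (.seq (.push .D false) (.push .D true)))
        (.seq (.push .A true) (.seq (.push .D true) (.push .D true)))))
      ⟨a, fl l b, c, fl m d⟩ ⟨l.reverse ++ a, b, c, fl (l.reverse ++ m) d⟩
      (7 * l.length + 1) := by
  induction l with
  | nil => intro m a b c d; exact Exec.loopFalse rfl
  | cons x l ih =>
    intro m a b c d
    have h := ih (x :: m) (x :: a) b c d
    have h2 : Exec (.case .B .skip
        (.seq (.push .A false) (.seq (.push .D false) (.push .D true)))
        (.seq (.push .A true) (.seq (.push .D true) (.push .D true))))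
        ⟨a, x :: fl l b, c, fl m d⟩ ⟨x :: a, fl l b, c, fl (x :: m) d⟩ 6 := by
      cases x
      · exact Exec.caseFalse rfl (Exec.seq (Exec.pushA _ _ _ _ _)
          (Exec.seq (Exec.pushD _ _ _ _ _) (Exec.pushD _ _ _ _ _)))
      · exact Exec.caseTrue rfl (Exec.seq (Exec.pushA _ _ _ _ _)
          (Exec.seq (Exec.pushD _ _ _ _ _) (Exec.pushD _ _ _ _ _)))
    have h3 := Exec.loopTrue (k := .B) (S := ⟨a, fl (x :: l) b, c, fl m d⟩) rfl h2 h
    simp only [List.reverse_cons, List.append_assoc, List.singleton_append,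
      List.length_cons]
    exact h3.mono (by omega)

theorem flBAD_exec (l a b c d : List Bool) :
    Exec flBAD ⟨a, fl l b, c, d⟩ ⟨l.reverse ++ a, b, c, fl l.reverse d⟩
      (7 * l.length + 3) := by
  have h := flBAD_loop l [] a b c d
  have h2 := Exec.seq (Exec.pushD false a (fl l b) c d) h
  simp only [List.append_nil] at h2
  exact h2.mono (by omega)

/-- The parsing loop: moves one tree code per `true` on `C` from `A` to (flagged) `B`. -/
def parseLoop : Cmd :=
  .loop .C (.case .A .skip
    (.seq (.push .B false) (.push .B true))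
    (.seq (.push .B true) (.seq (.push .B true) (.seq (.push .C true) (.push .C true)))))

theorem parseLoop_step (x : Dt) : ∀ (m a b c d : List Bool) (S' : St) (T : ℕ),
    Exec parseLoop ⟨a, fl (x.enc.reverse ++ m) b, c, d⟩ S' T →
    Exec parseLoop ⟨x.enc ++ a, fl m b, true :: c, d⟩ S' (T + 9 * x.enc.length) := by
  induction x with
  | nil =>
    intro m a b c d S' T h
    have h2 : Exec (.case .A .skip
        (.seq (.push .B false) (.push .B true))
        (.seq (.push .B true) (.seq (.push .B true) (.seq (.push .C true) (.push .C true)))))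
        ⟨false :: a, fl m b, c, d⟩ ⟨a, fl (false :: m) b, c, d⟩ 4 :=
      Exec.caseFalse rfl (Exec.seq (Exec.pushB _ _ _ _ _) (Exec.pushB _ _ _ _ _))
    exact (Exec.loopTrue (k := .C) (S := ⟨false :: a, fl m b, true :: c, d⟩) rfl h2 h).mono
      (by simp; omega)
  | cons p q ihp ihq =>
    intro m a b c d S' T h
    have h2 : Exec (.case .A .skip
        (.seq (.push .B false) (.push .B true))
        (.seq (.push .B true) (.seq (.push .B true) (.seq (.push .C true) (.push .C true)))))
        ⟨true :: (p.enc ++ (q.enc ++ a)), fl m b, c, d⟩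
        ⟨p.enc ++ (q.enc ++ a), fl (true :: m) b, true :: true :: c, d⟩ 8 :=
      Exec.caseTrue rfl (Exec.seq (Exec.pushB _ _ _ _ _)
        (Exec.seq (Exec.pushB _ _ _ _ _) (Exec.seq (Exec.pushC _ _ _ _ _)
          (Exec.pushC _ _ _ _ _))))
    have h3 : Exec parseLoop ⟨a, fl (q.enc.reverse ++ (p.enc.reverse ++ (true :: m))) b, c, d⟩
        S' T := by
      simpa using h
    have h4 := ihp (true :: m) (q.enc ++ a) b (true :: c) d S' _ (ihq _ a b c d S' T h3)
    have h5 := Exec.loopTrue (k := .C)
      (S := ⟨true :: (p.enc ++ (q.enc ++ a)), fl m b, true :: c, d⟩) rfl h2 h4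
    have e : (Dt.cons p q).enc ++ a = true :: (p.enc ++ (q.enc ++ a)) := by simp
    rw [e]
    refine h5.mono ?_
    simp only [Dt.enc_cons, List.length_cons, List.length_append]
    omega

/-- Move one tree code from `A` to (flagged, reversed) `B`. -/
def parseAB : Cmd :=
  .seq (.push .B false) (.seq (.push .C false) (.seq (.push .C true) parseLoop))

theorem parseAB_exec (x : Dt) (a b c d : List Bool) :
    Exec parseAB ⟨x.enc ++ a, b, c, d⟩ ⟨a, fl x.enc.reverse b, c, d⟩
      (9 * x.enc.length + 7) := by
  have h0 : Exec parseLoop ⟨a, fl (x.enc.reverse ++ []) b, false :: c, d⟩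
      ⟨a, fl x.enc.reverse b, c, d⟩ 1 := by
    rw [List.append_nil]
    exact Exec.loopFalse rfl
  have h1 := parseLoop_step x [] a b (false :: c) d _ _ h0
  have h2 := Exec.seq (Exec.pushB false (x.enc ++ a) b c d)
    (Exec.seq (Exec.pushC false _ _ _ _) (Exec.seq (Exec.pushC true _ _ _ _) h1))
  exact h2.mono (by omega)

/-- The dropping loop. -/
def dropLoop : Cmd :=
  .loop .C (.case .A .skip .skip (.seq (.push .C true) (.push .C true)))

theorem dropLoop_step (x : Dt) : ∀ (a b c d : List Bool) (S' : St) (T : ℕ),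
    Exec dropLoop ⟨a, b, c, d⟩ S' T →
    Exec dropLoop ⟨x.enc ++ a, b, true :: c, d⟩ S' (T + 5 * x.enc.length) := by
  induction x with
  | nil =>
    intro a b c d S' T h
    have h2 : Exec (.case .A .skip .skip (.seq (.push .C true) (.push .C true)))
        ⟨false :: a, b, c, d⟩ ⟨a, b, c, d⟩ 2 := Exec.caseFalse rfl (Exec.skip _)
    exact (Exec.loopTrue (k := .C) (S := ⟨false :: a, b, true :: c, d⟩) rfl h2 h).mono
      (by simp; omega)
  | cons p q ihp ihq =>
    intro a b c d S' T h
    have h2 : Exec (.case .A .skip .skip (.seq (.push .C true) (.push .C true)))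
        ⟨true :: (p.enc ++ (q.enc ++ a)), b, c, d⟩
        ⟨p.enc ++ (q.enc ++ a), b, true :: true :: c, d⟩ 4 :=
      Exec.caseTrue rfl (Exec.seq (Exec.pushC _ _ _ _ _) (Exec.pushC _ _ _ _ _))
    have h4 := ihp (q.enc ++ a) b (true :: c) d S' _ (ihq a b c d S' T h)
    have h5 := Exec.loopTrue (k := .C)
      (S := ⟨true :: (p.enc ++ (q.enc ++ a)), b, true :: c, d⟩) rfl h2 h4
    have e : (Dt.cons p q).enc ++ a = true :: (p.enc ++ (q.enc ++ a)) := by simp
    rw [e]
    refine h5.mono ?_
    simp only [Dt.enc_cons, List.length_cons, List.length_append]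
    omega

/-- Drop one tree code from `A`. -/
def dropA : Cmd := .seq (.push .C false) (.seq (.push .C true) dropLoop)

theorem dropA_exec (x : Dt) (a b c d : List Bool) :
    Exec dropA ⟨x.enc ++ a, b, c, d⟩ ⟨a, b, c, d⟩ (5 * x.enc.length + 5) := by
  have h0 : Exec dropLoop ⟨a, b, false :: c, d⟩ ⟨a, b, c, d⟩ 1 := Exec.loopFalse rfl
  have h1 := dropLoop_step x a b (false :: c) d _ _ h0
  have h2 := Exec.seq (Exec.pushC false (x.enc ++ a) b c d)
    (Exec.seq (Exec.pushC true _ _ _ _) h1)
  exact h2.mono (by omega)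

/-- Duplicate the top tree code of `A`. -/
def dupA : Cmd := .seq parseAB (.seq flBAD (.seq flDB flBA))

theorem dupA_exec (x : Dt) (a b c d : List Bool) :
    Exec dupA ⟨x.enc ++ a, b, c, d⟩ ⟨x.enc ++ (x.enc ++ a), b, c, d⟩
      (24 * x.enc.length + 17) := by
  have h1 := parseAB_exec x a b c d
  have h2 := flBAD_exec x.enc.reverse a b c d
  have h3 := flDB_exec x.enc.reverse.reverse (x.enc.reverse.reverse ++ a) b c d
  have h4 := flBA_exec x.enc.reverse.reverse.reverse (x.enc.reverse.reverse ++ a) b c d
  have h := Exec.seq h1 (Exec.seq h2 (Exec.seq h3 h4))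
  simp only [List.reverse_reverse, List.length_reverse] at h
  exact h.mono (by omega)

/-- Swap the top two tree codes of `A`. -/
def swapA : Cmd := .seq parseAB (.seq parseAB (.seq flBD (.seq flBA (.seq flDB flBA))))

theorem swapA_exec (x y : Dt) (a b c d : List Bool) :
    Exec swapA ⟨x.enc ++ (y.enc ++ a), b, c, d⟩ ⟨y.enc ++ (x.enc ++ a), b, c, d⟩
      (22 * (x.enc.length + y.enc.length) + 40) := by
  have h1 := parseAB_exec x (y.enc ++ a) b c d
  have h2 := parseAB_exec y a (fl x.enc.reverse b) c d
  have h3 := flBD_exec y.enc.reverse a (fl x.enc.reverse b) c d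
  have h4 := flBA_exec x.enc.reverse a b c (fl y.enc.reverse.reverse d)
  have h5 := flDB_exec y.enc.reverse.reverse (x.enc.reverse.reverse ++ a) b c d
  have h6 := flBA_exec y.enc.reverse.reverse.reverse (x.enc.reverse.reverse ++ a) b c d
  have h := Exec.seq h1 (Exec.seq h2 (Exec.seq h3 (Exec.seq h4 (Exec.seq h5 h6))))
  simp only [List.reverse_reverse, List.length_reverse] at h
  exact h.mono (by omega)

/-- Push a fixed list of bits on `A` (last bit first, so the list ends up on top). -/
def pushList : List Bool → Cmd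
  | [] => .skip
  | x :: l => .seq (pushList l) (.push .A x)

theorem pushList_exec (l : List Bool) : ∀ (a b c d : List Bool),
    Exec (pushList l) ⟨a, b, c, d⟩ ⟨l ++ a, b, c, d⟩ (2 * l.length + 1) := by
  induction l with
  | nil => intro a b c d; exact Exec.skip _
  | cons x l ih =>
    intro a b c d
    exact (Exec.seq (ih a b c d) (Exec.pushA x _ _ _ _)).mono (by simp; omega)

end Pool.Agent.SemiTrans.PT
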